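import Mathlib

set_option autoImplicit false

namespace Pool.Agent.H.MP_ea1cff_co

open Finset

def Diag (n : ℕ) (T : Finset (ℕ × ℕ)) : Prop :=
  ∀ p ∈ T, p.1 + 2 ≤ p.2 ∧ p.2 < n ∧ ¬ (p.1 = 0 ∧ p.2 + 1 = n)

def NC (T : Finset (ℕ × ℕ)) : Prop :=
  ∀ p ∈ T, ∀ q ∈ T, ¬ (p.1 < q.1 ∧ q.1 < p.2 ∧ p.2 < q.2)

theorem apex (U : Finset (ℕ × ℕ)) (a b : ℕ) (h : a + 2 ≤ b) :
    ∃ e, a < e ∧ e < b ∧ (e = a + 1 ∨ (a, e) ∈ U) ∧ ∀ y, y < b → (a, y) ∈ U → y ≤ e := by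
  classical
  let P : ℕ → Prop := fun e => e = a + 1 ∨ (a, e) ∈ U
  have h1 : a + 1 ≤ Nat.findGreatest P (b - 1) := Nat.le_findGreatest (by omega) (Or.inl rfl)
  have h2 : Nat.findGreatest P (b - 1) ≤ b - 1 := Nat.findGreatest_le _
  have h3 : P (Nat.findGreatest P (b - 1)) :=
    Nat.findGreatest_spec (m := a + 1) (by omega) (Or.inl rfl)
  refine ⟨_, by omega, by omega, h3, fun y hy hU => Nat.le_findGreatest (by omega) (Or.inr hU)⟩

theorem card_le (n : ℕ) (U : Finset (ℕ × ℕ)) (h1 : ∀ p ∈ U, p.1 + 2 ≤ p.2 ∧ p.2 < n)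
    (h2 : NC U) : U.card ≤ n - 2 := by
  classical
  have : ∀ p : ℕ × ℕ, ∃ e, p.1 + 2 ≤ p.2 → p.1 < e ∧ e < p.2 ∧ (e = p.1 + 1 ∨ (p.1, e) ∈ U) ∧
      ∀ y, y < p.2 → (p.1, y) ∈ U → y ≤ e := by
    intro p
    by_cases h : p.1 + 2 ≤ p.2
    · obtain ⟨e, he⟩ := apex U p.1 p.2 h
      exact ⟨e, fun _ => he⟩
    · exact ⟨0, fun h' => absurd h' h⟩
  choose φ hφ using this
  have hc : U.card ≤ (Ioo 0 (n - 1)).card := by
    refine card_le_card_of_injOn φ ?_ ?_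
    · intro p hp
      have := h1 p hp
      have := hφ p this.1
      simp only [coe_Ioo, Set.mem_Ioo]
      omega
    · have key : ∀ p ∈ U, ∀ q ∈ U, φ p = φ q → ¬ p.1 < q.1 := by
        intro p hp q hq e hlt
        obtain ⟨a1, a2, a3, a4⟩ := hφ p (h1 p hp).1
        obtain ⟨b1, b2, b3, b4⟩ := hφ q (h1 q hq).1
        rcases a3 with a3 | a3
        · omega
        · exact h2 _ a3 q hq ⟨hlt, by simp only; omega, by simp only; omega⟩
      have key2 : ∀ p ∈ U, ∀ q ∈ U, φ p = φ q → p.1 = q.1 → ¬ p.2 < q.2 := by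
        intro p hp q hq e h hlt
        obtain ⟨a1, a2, a3, a4⟩ := hφ p (h1 p hp).1
        obtain ⟨b1, b2, b3, b4⟩ := hφ q (h1 q hq).1
        have := b4 p.2 hlt (by rw [← h]; exact hp)
        omega
      intro p hp q hq e
      have c1 := key p hp q hq e
      have c2 := key q hq p hp e.symm
      have c3 : p.1 = q.1 := by omega
      have c4 := key2 p hp q hq e c3
      have c5 := key2 q hq p hp e.symm c3.symm
      exact Prod.ext c3 (by omega)
  simp only [Nat.card_Ioo] at hc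
  omega

structure Tr (n : ℕ) (T : Finset (ℕ × ℕ)) : Prop where
  d : Diag n T
  nc : NC T
  card : T.card + 3 = n

theorem maximal {n : ℕ} {T : Finset (ℕ × ℕ)} (h : Tr n T) (c b : ℕ) (h0 : 0 < c) (h1 : c + 2 ≤ b)
    (h2 : b < n) (h3 : ∀ q ∈ T, ¬ (c < q.1 ∧ q.1 < b ∧ b < q.2) ∧ ¬ (q.1 < c ∧ c < q.2 ∧ q.2 < b)) :
    (c, b) ∈ T := by
  classical
  by_contra hn
  have hc := h.card
  have hr : (0, n - 1) ∉ insert (c, b) T := by
    simp only [mem_insert, Prod.mk.injEq, not_or]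
    refine ⟨by omega, fun hm => (h.d _ hm).2.2 ⟨rfl, by simp only; omega⟩⟩
  have := card_le n (insert (0, n - 1) (insert (c, b) T)) (by
    intro p hp
    simp only [mem_insert] at hp
    rcases hp with rfl | rfl | hp
    · simp only; omega
    · simp only; omega
    · exact ⟨(h.d p hp).1, (h.d p hp).2.1⟩) (by
    intro p hp q hq
    simp only [mem_insert] at hp hq
    rcases hp with rfl | rfl | hp <;> rcases hq with rfl | rfl | hq
    · simp
    · simp only; omega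
    · have := h.d q hq
      simp only; omega
    · simp
    · simp
    · exact (h3 q hq).1
    · simp
    · exact (h3 p hp).2
    · exact h.nc p hp q hq)
  rw [card_insert_of_notMem hr, card_insert_of_notMem hn] at this
  omega

theorem split {n : ℕ} {T : Finset (ℕ × ℕ)} (h : Tr n T) (a b : ℕ) (h1 : a + 2 ≤ b)
    (h2 : (a, b) ∈ T ∨ (a = 0 ∧ b + 1 = n)) :
    ∃ e, a < e ∧ e < b ∧ (e = a + 1 ∨ (a, e) ∈ T) ∧ (e + 1 = b ∨ (e, b) ∈ T) := by
  obtain ⟨e, e1, e2, e3, e4⟩ := apex T a b h1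
  refine ⟨e, e1, e2, e3, ?_⟩
  by_cases he : e + 1 = b
  · exact Or.inl he
  right
  have hb : b < n := by
    rcases h2 with h2 | h2
    · exact (h.d _ h2).2.1
    · omega
  refine maximal h e b (by omega) (by omega) hb ?_
  rintro ⟨x, y⟩ hq
  have hd := h.d _ hq
  simp only at hd ⊢
  constructor
  · rintro ⟨c1, c2, c3⟩
    rcases h2 with h2 | h2
    · exact h.nc _ h2 _ hq ⟨by simp only; omega, c2, c3⟩
    · omega
  · rintro ⟨c1, c2, c3⟩
    rcases lt_trichotomy x a with c | c | c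
    · rcases h2 with h2 | h2
      · exact h.nc _ hq _ h2 ⟨c, by simp only; omega, c3⟩
      · omega
    · subst c
      have := e4 y c3 hq
      omega
    · rcases e3 with e3 | e3
      · omega
      · exact h.nc _ e3 _ hq ⟨c, c1, c2⟩

theorem has_ear {n : ℕ} {T : Finset (ℕ × ℕ)} (h : Tr n T) (k : ℕ) :
    ∀ a b, b - a = k → (a, b) ∈ T → ∃ u, a ≤ u ∧ u + 2 ≤ b ∧ (u, u + 2) ∈ T := by
  induction k using Nat.strong_induction_on with
  | _ k ih =>
    intro a b hk hab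
    have hd := (h.d _ hab).1
    simp only at hd
    obtain ⟨e, e1, e2, e3, e4⟩ := split h a b hd (Or.inl hab)
    rcases e3 with e3 | e3
    · rcases e4 with e4 | e4
      · refine ⟨a, le_rfl, by omega, ?_⟩
        rwa [show a + 2 = b by omega]
      · obtain ⟨u, u1, u2, u3⟩ := ih (b - e) (by omega) e b rfl e4
        exact ⟨u, by omega, u2, u3⟩
    · obtain ⟨u, u1, u2, u3⟩ := ih (e - a) (by omega) a e rfl e3
      exact ⟨u, u1, by omega, u3⟩

def Uniq (T : Finset (ℕ × ℕ)) (a b v : ℕ) : Prop :=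
  ∀ u, a ≤ u → u + 2 ≤ b → (u, u + 2) ∈ T → u = v

theorem step {n : ℕ} {T : Finset (ℕ × ℕ)} (h : Tr n T) (a b v : ℕ) (hab : (a, b) ∈ T)
    (h3 : a + 3 ≤ b) (hu : Uniq T a b v) : (a + 1, b) ∈ T ∨ (a, b - 1) ∈ T := by
  obtain ⟨e, e1, e2, e3, e4⟩ := split h a b (by omega) (Or.inl hab)
  rcases e3 with e3 | e3 <;> rcases e4 with e4 | e4
  · omega
  · left
    rwa [← e3]
  · right
    rwa [show b - 1 = e by omega]
  · obtain ⟨u, u1, u2, u3⟩ := has_ear h _ a e rfl e3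
    obtain ⟨u', u1', u2', u3'⟩ := has_ear h _ e b rfl e4
    have := hu u u1 (by omega) u3
    have := hu u' (by omega) u2' u3'
    omega

theorem order {n : ℕ} {T T' : Finset (ℕ × ℕ)} (h : Tr n T) (h' : Tr n T')
    (hd : ∀ p ∈ T, p ∉ T') (v v' : ℕ) (k : ℕ) :
    ∀ a b a' b', (b - a) + (b' - a') = k → (a, b) ∈ T → (a', b') ∈ T' → a ≤ a' → b ≤ b' →
      Uniq T a b v → Uniq T' a' b' v' → v < v' := by
  induction k using Nat.strong_induction_on with
  | _ k ih =>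
    intro a b a' b' hk m m' l1 l2 u u'
    have d1 := (h.d _ m).1
    have d2 := (h'.d _ m').1
    simp only at d1 d2
    have hne : ¬ (a = a' ∧ b = b') := by
      rintro ⟨rfl, rfl⟩
      exact hd _ m m'
    by_cases c : b' - a' ≤ b - a
    · by_cases c2 : a + 3 ≤ b
      · rcases step h a b v m c2 u with s | s
        · exact ih _ (by omega) (a + 1) b a' b' rfl s m' (by omega) l2
            (fun w w1 w2 w3 => u w (by omega) w2 w3) u'
        · exact ih _ (by omega) a (b - 1) a' b' rfl s m' l1 (by omega)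
            (fun w w1 w2 w3 => u w w1 (by omega) w3) u'
      · have e1 : b = a + 2 := by omega
        have e2 : b' = a' + 2 := by omega
        subst e1 e2
        have := u a le_rfl le_rfl m
        have := u' a' le_rfl le_rfl m'
        omega
    · rcases step h' a' b' v' m' (by omega) u' with s | s
      · exact ih _ (by omega) a b (a' + 1) b' rfl m s (by omega) l2 u
          (fun w w1 w2 w3 => u' w (by omega) w2 w3)
      · exact ih _ (by omega) a b a' (b' - 1) rfl m s l1 (by omega) u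
          (fun w w1 w2 w3 => u' w w1 (by omega) w3)

theorem root {n : ℕ} {T : Finset (ℕ × ℕ)} (h : Tr n T) (hn : 5 ≤ n) (h1 : (1, n - 1) ∉ T)
    (h2 : (0, n - 2) ∉ T) : ∃ c, (0, c) ∈ T ∧ (c, n - 1) ∈ T := by
  obtain ⟨e, e1, e2, e3, e4⟩ := split h 0 (n - 1) (by omega) (Or.inr ⟨rfl, by omega⟩)
  rcases e3 with e3 | e3 <;> rcases e4 with e4 | e4
  · omega
  · subst e3
    exact absurd e4 h1
  · rw [show e = n - 2 by omega] at e3
    exact absurd e3 h2
  · exact ⟨e, e3, e4⟩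

theorem two_ears {n : ℕ} {T : Finset (ℕ × ℕ)} (h : Tr n T) {c : ℕ} (h1 : (0, c) ∈ T)
    (h2 : (c, n - 1) ∈ T) :
    ∃ i j, i + 2 ≤ c ∧ c ≤ j ∧ (i, i + 2) ∈ T ∧ (j, j + 2) ∈ T := by
  obtain ⟨u, u1, u2, u3⟩ := has_ear h _ _ _ rfl h1
  obtain ⟨u', u1', u2', u3'⟩ := has_ear h _ _ _ rfl h2
  exact ⟨u, u', u2, u1', u3, u3'⟩

theorem uniq_of {n : ℕ} {T : Finset (ℕ × ℕ)} (h : Tr n T) {c : ℕ} (h1 : (0, c) ∈ T)
    (h2 : (c, n - 1) ∈ T) (i j : ℕ) (hij : i < j)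
    (hu : ∀ u, (u, u + 2) ∈ T → u = i ∨ u = j) : Uniq T 0 c i ∧ Uniq T c (n - 1) j := by
  obtain ⟨x, y, c1, c2, c3, c4⟩ := two_ears h h1 h2
  have := hu x c3
  have := hu y c4
  constructor
  · intro w w1 w2 w3
    have := hu w w3
    omega
  · intro w w1 w2 w3
    have := hu w w3
    omega

theorem cross {n : ℕ} {T T' : Finset (ℕ × ℕ)} (h : Tr n T) (h' : Tr n T')
    (hd : ∀ p ∈ T, p ∉ T') {c c' : ℕ} (h1 : (0, c) ∈ T) (h2 : (c, n - 1) ∈ T)
    (h1' : (0, c') ∈ T') (h2' : (c', n - 1) ∈ T') (i j i' j' : ℕ) (hij : i < j) (hij' : i' < j')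
    (hu : ∀ u, (u, u + 2) ∈ T → u = i ∨ u = j) (hu' : ∀ u, (u, u + 2) ∈ T' → u = i' ∨ u = j') :
    (i < i' ∧ i' < j ∧ j < j') ∨ (i' < i ∧ i < j' ∧ j' < j) := by
  obtain ⟨u1, u2⟩ := uniq_of h h1 h2 i j hij hu
  obtain ⟨u1', u2'⟩ := uniq_of h' h1' h2' i' j' hij' hu'
  have hd' : ∀ p ∈ T', p ∉ T := fun p hp hq => hd p hq hp
  have d := (h.d _ h1).2.1
  have d' := (h'.d _ h1').2.1
  simp only at d d'
  have o1 := order h' h hd' i' j _ 0 c' c (n - 1) rfl h1' h2 (by omega) (by omega) u1' u2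
  have o2 := order h h' hd i j' _ 0 c c' (n - 1) rfl h1 h2' (by omega) (by omega) u1 u2'
  rcases le_total c c' with l | l
  · left
    exact ⟨order h h' hd i i' _ 0 c 0 c' rfl h1 h1' le_rfl l u1 u1', o1,
      order h h' hd j j' _ c (n - 1) c' (n - 1) rfl h2 h2' l le_rfl u2 u2'⟩
  · right
    exact ⟨order h' h hd' i' i _ 0 c' 0 c rfl h1' h1 le_rfl l u1' u1, o2,
      order h' h hd' j' j _ c' (n - 1) c (n - 1) rfl h2' h2 l le_rfl u2' u2⟩

def Good (E : List ℕ) : Prop := (∀ v ∈ E, v + 1 ∉ E) ∧ ∃ i ∈ E, ∃ j ∈ E, i < j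

def Comp (E F : List ℕ) : Prop :=
  (∀ v ∈ E, v ∉ F) ∧ ∀ i ∈ E, ∀ j ∈ E, i < j → (∀ v ∈ E, v = i ∨ v = j) →
    ∀ i' ∈ F, ∀ j' ∈ F, i' < j' → (∀ v ∈ F, v = i' ∨ v = j') →
      (i < i' ∧ i' < j ∧ j < j') ∨ (i' < i ∧ i < j' ∧ j' < j)

instance (E : List ℕ) : Decidable (Good E) := by unfold Good; infer_instance
instance (E F : List ℕ) : Decidable (Comp E F) := by unfold Comp; infer_instance

def col (E : List ℕ) : Bool :=
  decide (E ∈ [[1, 6], [2, 5], [2, 6], [2, 7], [3, 6], [3, 7], [0, 2, 6], [0, 2, 7], [0, 3, 6],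
    [0, 3, 7], [0, 5, 7], [1, 3, 5], [1, 3, 6], [1, 3, 7], [1, 5, 7], [2, 4, 6], [2, 4, 7],
    [2, 5, 7], [3, 5, 7]])

def SL : List (List ℕ) := (List.range 8).sublists.filter (fun E => decide (Good E))

theorem check : ∀ E ∈ SL, ∀ F ∈ SL, Comp E F → col E = col F →
    ∀ G ∈ SL, Comp E G → Comp F G → col E ≠ col G := by
  decide +kernel

def ears (T : Finset (ℕ × ℕ)) : List ℕ := (List.range 8).filter (fun u => decide ((u, u + 2) ∈ T))

/-- all ears lie in the window -/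
structure Low (n : ℕ) (T : Finset (ℕ × ℕ)) : Prop where
  h1 : (1, n - 1) ∉ T
  h2 : (0, n - 2) ∉ T
  h3 : ∀ u, (u, u + 2) ∈ T → u < 8

theorem mem_ears {n : ℕ} {T : Finset (ℕ × ℕ)} (l : Low n T) (u : ℕ) :
    u ∈ ears T ↔ (u, u + 2) ∈ T := by
  simp only [ears, List.mem_filter, List.mem_range, decide_eq_true_eq]
  exact ⟨fun h => h.2, fun h => ⟨l.h3 u h, h⟩⟩

theorem ears_mem {n : ℕ} {T : Finset (ℕ × ℕ)} (h : Tr n T) (hn : 5 ≤ n) (l : Low n T) :
    ears T ∈ SL := by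
  simp only [SL, List.mem_filter, List.mem_sublists, decide_eq_true_eq]
  refine ⟨List.filter_sublist, ?_, ?_⟩
  · intro v hv hv'
    rw [mem_ears l] at hv hv'
    exact h.nc _ hv _ hv' ⟨by simp, by simp, by simp⟩
  · obtain ⟨c, c1, c2⟩ := root h hn l.h1 l.h2
    obtain ⟨i, j, d1, d2, d3, d4⟩ := two_ears h c1 c2
    exact ⟨i, (mem_ears l i).2 d3, j, (mem_ears l j).2 d4, by omega⟩

theorem ears_comp {n : ℕ} {T T' : Finset (ℕ × ℕ)} (h : Tr n T) (h' : Tr n T') (hn : 5 ≤ n)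
    (l : Low n T) (l' : Low n T') (hd : ∀ p ∈ T, p ∉ T') : Comp (ears T) (ears T') := by
  constructor
  · intro v hv hv'
    rw [mem_ears l] at hv
    rw [mem_ears l'] at hv'
    exact hd _ hv hv'
  · intro i _ j _ hij hu i' _ j' _ hij' hu'
    obtain ⟨c, c1, c2⟩ := root h hn l.h1 l.h2
    obtain ⟨c', c1', c2'⟩ := root h' hn l'.h1 l'.h2
    exact cross h h' hd c1 c2 c1' c2' i j i' j' hij hij'
      (fun u hu1 => hu u ((mem_ears l u).2 hu1)) (fun u hu1 => hu' u ((mem_ears l' u).2 hu1))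

def earD (n u : ℕ) : ℕ × ℕ :=
  if u + 2 < n then (u, u + 2) else if u + 2 = n then (0, n - 2) else (1, n - 1)

theorem low_of {n : ℕ} {T : Finset (ℕ × ℕ)} (h : Tr n T) (hn : 10 ≤ n)
    (hl : ¬ ∃ u, 8 ≤ u ∧ u < n ∧ earD n u ∈ T) : Low n T := by
  refine ⟨fun m => hl ⟨n - 1, by omega, by omega, ?_⟩, fun m => hl ⟨n - 2, by omega, by omega, ?_⟩,
    fun u m => ?_⟩
  · unfold earD
    rw [if_neg (by omega), if_neg (by omega)]
    exact m
  · unfold earD
    rw [if_neg (by omega), if_pos (by omega)]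
    exact m
  · by_contra hu
    have := (h.d _ m).2.1
    simp only at this
    refine hl ⟨u, by omega, by omega, ?_⟩
    unfold earD
    rw [if_pos this]
    exact m

theorem main (m : ℕ) (hm : 3 ≤ m) : ∃ c : Finset (ℕ × ℕ) → Fin m,
    ∀ A B C : Finset (ℕ × ℕ), Tr (2 * m + 4) A → Tr (2 * m + 4) B → Tr (2 * m + 4) C →
      (∀ p ∈ A, p ∉ B) → (∀ p ∈ A, p ∉ C) → (∀ p ∈ B, p ∉ C) → c A = c B → c A ≠ c C := by
  classical
  have : ∀ T : Finset (ℕ × ℕ), ∃ k : Fin m,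
      (∃ u, 8 ≤ u ∧ earD (2 * m + 4) u ∈ T ∧ k.val = 2 + (u - 8) / 2) ∨
      ((¬ ∃ u, 8 ≤ u ∧ u < 2 * m + 4 ∧ earD (2 * m + 4) u ∈ T) ∧
        k.val = (col (ears T)).toNat) := by
    intro T
    by_cases hl : ∃ u, 8 ≤ u ∧ u < 2 * m + 4 ∧ earD (2 * m + 4) u ∈ T
    · obtain ⟨u, u1, u2, u3⟩ := hl
      exact ⟨⟨2 + (u - 8) / 2, by omega⟩, Or.inl ⟨u, u1, u3, rfl⟩⟩
    · have := Bool.toNat_le (col (ears T))
      exact ⟨⟨(col (ears T)).toNat, by omega⟩, Or.inr ⟨hl, rfl⟩⟩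
  choose c hc using this
  refine ⟨c, fun A B C hA hB hC dAB dAC dBC e1 e2 => ?_⟩
  have f1 : (c A).val = (c B).val := by rw [e1]
  have f2 : (c A).val = (c C).val := by rw [e2]
  have tA := Bool.toNat_le (col (ears A))
  have tB := Bool.toNat_le (col (ears B))
  have tC := Bool.toNat_le (col (ears C))
  rcases hc A with ⟨u, u1, u2, u3⟩ | ⟨lA, kA⟩ <;> rcases hc B with ⟨v, v1, v2, v3⟩ | ⟨lB, kB⟩ <;>
    rcases hc C with ⟨w, w1, w2, w3⟩ | ⟨lC, kC⟩
  · have : u = v ∨ u = w ∨ v = w := by omega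
    rcases this with rfl | rfl | rfl
    · exact dAB _ u2 v2
    · exact dAC _ u2 w2
    · exact dBC _ v2 w2
  · omega
  · omega
  · omega
  · omega
  · omega
  · omega
  · have lA := low_of hA (by omega) lA
    have lB := low_of hB (by omega) lB
    have lC := low_of hC (by omega) lC
    have inj : ∀ x y : Bool, x.toNat = y.toNat → x = y := by decide
    exact check _ (ears_mem hA (by omega) lA) _ (ears_mem hB (by omega) lB)
      (ears_comp hA hB (by omega) lA lB dAB) (inj _ _ (by omega)) _ (ears_mem hC (by omega) lC)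
      (ears_comp hA hC (by omega) lA lC dAC) (ears_comp hB hC (by omega) lB lC dBC)
      (inj _ _ (by omega))

end Pool.Agent.H.MP_ea1cff_co
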